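import Pool.Agent.R509.ET.Tree

/-!
# MP_12a1af_nt, Q1 and Q2: covering numbers of a set with bounded representation function

`rep A n` is the number `r_A(n)` of ordered pairs `(a, b) ∈ A × A` with `a + b = n`, `cnt A x` the number of the
elements of `A` in `[0, x)`, and `cov A x i` the number of the intervals `[j 2 ^ i, (j + 1) 2 ^ i)` that meet
`A ∩ [0, x)`. If `A` is a basis of order 2 (or `a_n ≤ C n ^ 2`), then `2 ^ i (cov A x i) ^ 2 ≥ c x` at every scale.
We show that for bounded `r_A` this lower bound cannot be sharp, up to constants, at many scales.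
-/

set_option autoImplicit false

namespace Pool.Agent.Results.MP_12a1af_nt.CoveringNumbers

open Finset Filter

/-- `r_A(n)`: the number of ordered pairs `(a, b) ∈ A × A` with `a + b = n`. -/
noncomputable def rep (A : Set ℕ) (n : ℕ) : ℕ := {p : ℕ × ℕ | p.1 ∈ A ∧ p.2 ∈ A ∧ p.1 + p.2 = n}.ncard

/-- `elt A n` is the `n`-th element `a_n` (`n ≥ 1`) of the infinite set `A` listed increasingly. -/
noncomputable def elt (A : Set ℕ) (n : ℕ) : ℕ := Nat.nth (fun a => a ∈ A) (n - 1)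

/-- The number of the elements of `A` less than `x`. -/
noncomputable def cnt (A : Set ℕ) (x : ℕ) : ℕ := {a : ℕ | a ∈ A ∧ a < x}.ncard

/-- The number of the intervals `[j 2 ^ i, (j + 1) 2 ^ i)` that contain an element of `A` less than `x`. -/
noncomputable def cov (A : Set ℕ) (x i : ℕ) : ℕ := {j : ℕ | ∃ a ∈ A, a < x ∧ a / 2 ^ i = j}.ncard

/-- The hypothesis of Q1 or the hypothesis of Q2. -/
def Grows (A : Set ℕ) : Prop :=
  (∀ᶠ n in atTop, 1 ≤ rep A n) ∨ (A.Infinite ∧ ∃ C : ℝ, ∀ n : ℕ, 1 ≤ n → (elt A n : ℝ) ≤ C * (n : ℝ) ^ 2)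

/-- At least `δ log x` of the scales `2 ^ i ≤ x` satisfy `2 ^ i (cov B x i) ^ 2 ≤ T x`. -/
def Regular (B : Set ℕ) (T δ : ℝ) (x : ℕ) : Prop :=
  δ * Real.log x ≤ {i : ℕ | 2 ^ i ≤ x ∧ (2 : ℝ) ^ i * (cov B x i : ℝ) ^ 2 ≤ T * x}.ncard

/-- In base `g ^ 2` the digits of the elements of `B` are restricted to `g` values, which may depend arbitrarily on the
place and on all the higher digits: each interval `[j g ^ (2 (i + 1)), (j + 1) g ^ (2 (i + 1)))` contains at most `g`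
intervals `[l g ^ (2 i), (l + 1) g ^ (2 i))` that meet `B`. -/
def Tree (g : ℕ) (B : Set ℕ) : Prop := ∀ i j : ℕ, {l : ℕ | l / g ^ 2 = j ∧ ∃ b ∈ B, b / (g ^ 2) ^ i = l}.ncard ≤ g

lemma cnt_eq (A : Set ℕ) (x : ℕ) : cnt A x = (Pool.Agent.R509.ET.up A x).card := by
  unfold cnt
  rw [← Set.ncard_coe_finset]
  congr 1
  ext a
  rw [mem_coe, Pool.Agent.R509.ET.mem_up, and_comm]
  rfl

lemma cov_eq (A : Set ℕ) (x i : ℕ) : cov A x i = Pool.Agent.R509.ET.box (Pool.Agent.R509.ET.up A x) i := by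
  unfold cov Pool.Agent.R509.ET.box
  rw [← Set.ncard_coe_finset]
  congr 1
  ext j
  rw [mem_coe, mem_image]
  constructor
  · rintro ⟨a, ha, hax, h⟩
    exact ⟨a, (Pool.Agent.R509.ET.mem_up _ _ _).2 ⟨hax, ha⟩, h⟩
  · rintro ⟨a, ha, h⟩
    rw [Pool.Agent.R509.ET.mem_up] at ha
    exact ⟨a, ha.2, ha.1, h⟩

lemma reg_iff (B : Set ℕ) (T δ : ℝ) (x : ℕ) (hx : 1 ≤ x) (h : Regular B T δ x) : Pool.Agent.R509.ET.Reg B T δ x := by
  classical
  unfold Regular at h
  unfold Pool.Agent.R509.ET.Reg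
  refine h.trans (le_of_eq ?_)
  rw [← Set.ncard_coe_finset]
  congr 2
  ext i
  rw [mem_coe, mem_filter, mem_range, ← cov_eq]
  have h1 : 2 ^ i ≤ x ↔ i < Nat.log 2 x + 1 := by
    rw [Nat.lt_succ_iff, Nat.le_log_iff_pow_le (by norm_num) (by omega)]
  rw [← h1]
  rfl

/-- 1. **Inequality.** If `r_A(n) ≤ R` for all `n < 2 x` then
`∑ i, A(x) ^ 2 / (2 ^ i (cov A x i) ^ 2) ≤ 12 R` for every set `A`, where `A(x) = cnt A x`.

2. If `A` satisfies the hypothesis of Q1 or that of Q2 and `r_A` is bounded then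
`∑ i, x / (2 ^ i (cov A x i) ^ 2) ≤ C` for all `x`. So for every `T` and `x` there are at most `C T` scales `2 ^ i ≤ x`
with `2 ^ i (cov A x i) ^ 2 ≤ T x`.

3. If `B ⊆ A` has `B(x) ^ 2 ≥ c x` and is regular (`Regular B T δ x`) for the same infinitely many `x` then
`r_A(n) ≥ c' log n` for infinitely many `n`, for some `c' > 0`.

4. The same conclusion for every set `A` with the hypothesis of Q1 or that of Q2 which is a union of finitely many sets
`B j`, all of which are regular for the same infinitely many `x`.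

5. In particular, `r_A(n) ≥ c' log n` for infinitely many `n` for every set `A` with the hypothesis of Q1 or that of Q2
which is a union of finitely many sets `B j` whose digits in base `(g j) ^ 2` (bases may be different) are restricted
to `g j` values, which may depend arbitrarily on the place and all the higher digits. -/
theorem result :
    (∀ (A : Set ℕ) (x I R : ℕ), (∀ n < 2 * x, rep A n ≤ R) →
      ∑ i ∈ range (I + 1), (cnt A x : ℝ) ^ 2 / ((2 : ℝ) ^ i * (cov A x i : ℝ) ^ 2) ≤ 12 * R) ∧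
    (∀ (A : Set ℕ) (K : ℕ), Grows A → (∀ n, rep A n ≤ K) →
      ∃ C : ℝ, ∀ x I : ℕ, ∑ i ∈ range (I + 1), (x : ℝ) / ((2 : ℝ) ^ i * (cov A x i : ℝ) ^ 2) ≤ C) ∧
    (∀ (A B : Set ℕ) (c T δ : ℝ), B ⊆ A → 0 < c → 0 < T → 0 < δ →
      (∃ᶠ x : ℕ in atTop, c * x ≤ (cnt B x : ℝ) ^ 2 ∧ Regular B T δ x) →
      ∃ c' : ℝ, 0 < c' ∧ ∃ᶠ n : ℕ in atTop, c' * Real.log n ≤ rep A n) ∧
    (∀ (A : Set ℕ) (k : ℕ) (B : Fin k → Set ℕ) (T δ : ℝ), Grows A → A = ⋃ j, B j → 0 < T → 0 < δ →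
      (∃ᶠ x : ℕ in atTop, ∀ j, Regular (B j) T δ x) →
      ∃ c' : ℝ, 0 < c' ∧ ∃ᶠ n : ℕ in atTop, c' * Real.log n ≤ rep A n) ∧
    (∀ (A : Set ℕ) (k : ℕ) (B : Fin k → Set ℕ) (g : Fin k → ℕ), Grows A → A = ⋃ j, B j →
      (∀ j, 2 ≤ g j ∧ Tree (g j) (B j)) →
      ∃ c' : ℝ, 0 < c' ∧ ∃ᶠ n : ℕ in atTop, c' * Real.log n ≤ rep A n) := by
  refine ⟨?_, ?_, ?_, ?_, ?_⟩
  · intro A x I R h
    have h1 := Pool.Agent.R509.ET.part1 A x I R h
    simp only [← cov_eq, ← cnt_eq] at h1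
    exact h1
  · intro A K hA hK
    obtain ⟨C, hC⟩ := Pool.Agent.R509.ET.part2 A hA K hK
    refine ⟨C, fun x I => ?_⟩
    have h1 := hC x I
    simp only [← cov_eq] at h1
    exact h1
  · intro A B c T δ hBA hc hT hδ h
    apply Pool.Agent.R509.ET.part3 A B hBA c T δ hc hT hδ
    refine (h.and_eventually (eventually_ge_atTop 1)).mono fun x hx => ?_
    rw [← cnt_eq]
    exact ⟨hx.1.1, reg_iff B T δ x hx.2 hx.1.2⟩
  · intro A k B T δ hA hAB hT hδ h
    apply Pool.Agent.R509.ET.part4 A hA k B hAB T δ hT hδ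
    exact (h.and_eventually (eventually_ge_atTop 1)).mono fun x hx j => reg_iff (B j) T δ x hx.2 (hx.1 j)
  · intro A k B g hA hAB h
    exact Pool.Agent.R509.ET.part5 A hA k B g (fun j => (h j).1) (fun j => (h j).2) hAB

end Pool.Agent.Results.MP_12a1af_nt.CoveringNumbers
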