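import Mathlib
import Pool.Agent.R176.ETM.Main

/-!
# The Erdős–Turán problem (MP_12a1af_nt): level sets of multiplicative functions

Let `W` be a finite commutative group with a zero adjoined and `f : ℕ → W` a multiplicative function:
`f 1 = 1` and `f (m n) = f m f n` for all coprime `m`, `n`. (For instance `W = {0, 1}` and `f` the
indicator function of a set `M` such that `m n ∈ M` if and only if `m ∈ M` and `n ∈ M`, for coprime
`m`, `n`; or `f` the residues modulo a prime of an integer valued multiplicative function.)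
Let `A` be a set of positive integers on which `f` does not vanish and such that `m a ∈ A` whenever
`a ∈ A`, `f m = 1` and `gcd (a, m) = 1`: for instance a level set `{n | f n ∈ T}`, `T` any set of
nonzero elements of `W`.

1. If every large integer is a sum of `h ≥ 2` elements of `A`, then for every `σ < 1 / h` the number
`r_{A,h}(n)` of ordered representations of `n` as a sum of `h` elements of `A` is at least
`(log n) ^ σ` for infinitely many `n`. In particular it is unbounded.

2. More generally suppose that `A` has at least `X ^ δ` elements up to `X` for infinitely many `X`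
(`δ > 0`) and that only the large `n` with `f n = 1` are sums of `h ≥ 2` elements of `A` (for
instance: every large element of a multiplicative set `A` is a sum of `h` elements of `A`). Then
`r_{A,h}(n) ≥ (log n) ^ σ` for infinitely many `n`, for every `σ < δ`.

Idea. Rankin's bound shows that `f` is nonzero at powers of at least `(log X) ^ (1 / (1 - σ))`
different primes up to `X`. Products of `|W ˣ|` of them give many pairwise coprime `m` with `f m = 1`,
and each of them is a sum of `h` elements of `A`. These elements have few prime factors, so that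
there is a large set `I` of the `m` which are coprime to the summands of the others; and
`N = ∏_{m ∈ I} m` has the representations `(N / m) (x_1, …, x_h)`, where `m = x_1 + … + x_h`, which
are different because `m` does not divide `x_1`.
-/

set_option autoImplicit false

open Finset Filter Real

namespace Pool.Agent.Results.MP_12a1af_nt.MultiplicativeLevelSets

/-- The number of ordered representations of `n` as a sum of `h` elements of `A`. -/
noncomputable def rep (A : Set ℕ) (h n : ℕ) : ℕ :=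
  {v : Fin h → ℕ | (∀ i, v i ∈ A) ∧ ∑ i, v i = n}.ncard

/-- `n` is a sum of `h` elements of `A`. -/
def IsSum (A : Set ℕ) (h n : ℕ) : Prop := ∃ v : Fin h → ℕ, (∀ i, v i ∈ A) ∧ ∑ i, v i = n

/-- `f` is multiplicative. -/
def Mult {W : Type} [CommGroupWithZero W] (f : ℕ → W) : Prop :=
  f 1 = 1 ∧ ∀ m n, Nat.Coprime m n → f (m * n) = f m * f n

/-- `A` is a set of positive integers on which `f` does not vanish, and it contains `m a` for all
`a ∈ A` and all `m ≥ 1` coprime to `a` with `f m = 1`. -/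
def Stable {W : Type} [CommGroupWithZero W] (f : ℕ → W) (A : Set ℕ) : Prop :=
  (∀ a ∈ A, 0 < a ∧ f a ≠ 0) ∧ ∀ a ∈ A, ∀ m, 0 < m → f m = 1 → Nat.Coprime a m → m * a ∈ A

lemma rep_eq (A : Set ℕ) (h n : ℕ) : rep A h n = Pool.Agent.R176.ETM.reps A h n := by
  classical
  unfold rep Pool.Agent.R176.ETM.reps
  rw [← Set.ncard_coe_finset]
  congr 1
  ext v
  simp only [Set.mem_ofPred_eq, Finset.coe_filter, Finset.Nat.mem_antidiagonalTuple]
  exact and_comm

lemma card_eq (A : Set ℕ) (X : ℕ) [DecidablePred (· ∈ A)] :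
    ((A ∩ Set.Icc 1 X).ncard : ℝ) = (((Finset.Icc 1 X).filter (fun n => n ∈ A)).card : ℝ) := by
  rw [← Set.ncard_coe_finset]
  congr 2
  ext v
  simp only [Set.mem_inter_iff, Set.mem_Icc, Finset.coe_filter, Finset.mem_Icc,
    Set.mem_ofPred_eq]
  exact and_comm

theorem general {W : Type} [CommGroupWithZero W] [Finite W] {f : ℕ → W} (hf : Mult f) {A : Set ℕ}
    (hA : Stable f A) {h : ℕ} (hh : 2 ≤ h) {δ : ℝ} (hδ : 0 < δ)
    (hd : ∃ᶠ X : ℕ in atTop, (X : ℝ) ^ δ ≤ ((A ∩ Set.Icc 1 X).ncard : ℝ))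
    (hs : ∀ᶠ n : ℕ in atTop, f n = 1 → IsSum A h n) {σ : ℝ} (hσ : σ < δ) :
    ∃ᶠ n : ℕ in atTop, (log n) ^ σ ≤ (rep A h n : ℝ) := by
  classical
  obtain ⟨n0, hn0⟩ := eventually_atTop.1 hs
  have := Pool.Agent.R176.ETM.main (W := W) hf.1 hf.2 (A := A) (fun a ha => (hA.1 a ha).1)
    (fun a ha => (hA.1 a ha).2) hA.2 hh (n0 := n0) hn0 hδ hσ (by
      refine hd.mono (fun X hX => ?_)
      rw [card_eq] at hX
      convert hX)
  simpa only [rep_eq] using this

theorem basis {W : Type} [CommGroupWithZero W] [Finite W] {f : ℕ → W} (hf : Mult f) {A : Set ℕ}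
    (hA : Stable f A) {h : ℕ} (hh : 2 ≤ h) (hs : ∀ᶠ n : ℕ in atTop, IsSum A h n) {σ : ℝ}
    (hσ : σ < 1 / h) : ∃ᶠ n : ℕ in atTop, (log n) ^ σ ≤ (rep A h n : ℝ) := by
  classical
  obtain ⟨n0, hn0⟩ := eventually_atTop.1 hs
  have hh0 : (0 : ℝ) < h := by exact_mod_cast (by omega : 0 < h)
  obtain ⟨δ, hδ1, hδ2⟩ := exists_between (max_lt hσ (by positivity : (0 : ℝ) < 1 / h))
  rw [max_lt_iff] at hδ1
  have hev := Pool.Agent.R176.ETM.basis_density (fun a ha => (hA.1 a ha).1) hh (n0 := n0) hn0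
    hδ2
  refine general hf hA hh hδ1.2 (Eventually.frequently ?_) (hs.mono (fun n hn _ => hn)) hδ1.1
  filter_upwards [hev] with X hX
  rw [card_eq]
  convert hX

/-- **The Erdős–Turán conjecture for level sets of multiplicative functions.**
(1) Sets stable under `f` of which all large integers are sums of `h` elements.
(2) The special case of a level set `{n | f n ∈ T}`, `0 ∉ T`.
(3) The special case of a set with a multiplicative indicator function.
(4) The general form: only the large `n` with `f n = 1` have to be sums of `h` elements of `A`. -/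
theorem result :
    (∀ (W : Type) [CommGroupWithZero W] [Finite W] (f : ℕ → W) (A : Set ℕ) (h : ℕ),
      Mult f → Stable f A → 2 ≤ h → (∀ᶠ n : ℕ in atTop, IsSum A h n) →
      ∀ σ : ℝ, σ < 1 / h → ∃ᶠ n : ℕ in atTop, (log n) ^ σ ≤ (rep A h n : ℝ)) ∧
    (∀ (W : Type) [CommGroupWithZero W] [Finite W] (f : ℕ → W) (T : Set W) (h : ℕ),
      Mult f → 0 ∉ T → 2 ≤ h → (∀ᶠ n : ℕ in atTop, IsSum {n | 0 < n ∧ f n ∈ T} h n) →
      ∀ σ : ℝ, σ < 1 / h →
        ∃ᶠ n : ℕ in atTop, (log n) ^ σ ≤ (rep {n | 0 < n ∧ f n ∈ T} h n : ℝ)) ∧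
    (∀ (A : Set ℕ) (h : ℕ), 0 ∉ A → (∀ m n, Nat.Coprime m n → (m * n ∈ A ↔ m ∈ A ∧ n ∈ A)) →
      2 ≤ h → (∀ᶠ n : ℕ in atTop, IsSum A h n) →
      ∀ σ : ℝ, σ < 1 / h → ∃ᶠ n : ℕ in atTop, (log n) ^ σ ≤ (rep A h n : ℝ)) ∧
    (∀ (W : Type) [CommGroupWithZero W] [Finite W] (f : ℕ → W) (A : Set ℕ) (h : ℕ) (δ : ℝ),
      Mult f → Stable f A → 2 ≤ h → 0 < δ →
      (∃ᶠ X : ℕ in atTop, (X : ℝ) ^ δ ≤ ((A ∩ Set.Icc 1 X).ncard : ℝ)) →
      (∀ᶠ n : ℕ in atTop, f n = 1 → IsSum A h n) →
      ∀ σ : ℝ, σ < δ → ∃ᶠ n : ℕ in atTop, (log n) ^ σ ≤ (rep A h n : ℝ)) := by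
  classical
  refine ⟨?_, ?_, ?_, ?_⟩
  · intro W _ _ f A h hf hA hh hs σ hσ
    exact basis hf hA hh hs hσ
  · intro W _ _ f T h hf hT hh hs σ hσ
    refine basis hf ⟨?_, ?_⟩ hh hs hσ
    · rintro a ⟨ha, haT⟩
      exact ⟨ha, fun h0 => hT (h0 ▸ haT)⟩
    · rintro a ⟨ha, haT⟩ m hm0 hm hc
      refine ⟨Nat.mul_pos hm0 ha, ?_⟩
      rw [hf.2 m a hc.symm, hm, one_mul]
      exact haT
  · intro A h h0 hmul hh hs σ hσ
    have hne : ∃ a, a ∈ A := by
      obtain ⟨n, v, hv, _⟩ := hs.exists
      exact ⟨v ⟨0, by omega⟩, hv _⟩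
    have h1 : 1 ∈ A := by
      obtain ⟨a, ha⟩ := hne
      have := (hmul a 1 (Nat.coprime_one_right a)).1 (by rwa [mul_one])
      exact this.2
    let f : ℕ → ZMod 2 := fun n => if n ∈ A then 1 else 0
    have hf : Mult f := by
      refine ⟨by simp [f, h1], fun m n hc => ?_⟩
      have := hmul m n hc
      by_cases hm : m ∈ A <;> by_cases hn : n ∈ A <;> simp [f, hm, hn, this]
    refine basis hf ⟨?_, ?_⟩ hh hs hσ
    · intro a ha
      exact ⟨Nat.pos_of_ne_zero (fun h => h0 (h ▸ ha)), by simp [f, ha]⟩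
    · intro a ha m _ hm hc
      have hmA : m ∈ A := by
        by_contra hcon
        simp [f, hcon] at hm
      exact (hmul m a hc.symm).2 ⟨hmA, ha⟩
  · intro W _ _ f A h δ hf hA hh hδ hd hs σ hσ
    exact general hf hA hh hδ hd hs hσ

end Pool.Agent.Results.MP_12a1af_nt.MultiplicativeLevelSets
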