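import Pool.Agent.R447.SB.Asym

/-!
# An asymptotic basis of order two with `r_A(n) = o(log n)`

There is a set `A` of natural numbers such that every large `n` is a sum of two elements of `A`,
and the number `r_A(n)` of ordered representations is `O(log n / log log log n)`, in particular
`o(log n)`.
-/

namespace Pool.Agent.Results.MP_12a1af_nt.SlowBasis

open Filter Asymptotics

/-- `r_A(n)`: the number of ordered pairs of elements of `A` with sum `n`. -/
noncomputable def rep (A : Set ℕ) (n : ℕ) : ℕ :=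
  {q : ℕ × ℕ | q.1 ∈ A ∧ q.2 ∈ A ∧ q.1 + q.2 = n}.ncard

theorem result : ∃ A : Set ℕ, (∀ᶠ n : ℕ in atTop, 1 ≤ rep A n) ∧
    (fun n : ℕ => (rep A n : ℝ)) =O[atTop]
      (fun n : ℕ => Real.log n / Real.log (Real.log (Real.log n))) ∧
    (fun n : ℕ => (rep A n : ℝ)) =o[atTop] (fun n : ℕ => Real.log n) := by
  obtain ⟨A, h1, C, h2⟩ := Pool.Agent.R447.SB.main
  have hO : (fun n : ℕ => (rep A n : ℝ)) =O[atTop]
      (fun n : ℕ => Real.log n / Real.log (Real.log (Real.log n))) := by
    refine IsBigO.of_bound C ?_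
    filter_upwards [h2, Pool.Agent.R447.SB.tendsto_lll.eventually (eventually_ge_atTop (0 : ℝ)),
      Pool.Agent.R447.SB.tendsto_log_nat.eventually (eventually_ge_atTop (0 : ℝ))] with n h3 h4 h5
    have h6 : 0 ≤ Real.log n / Real.log (Real.log (Real.log n)) := div_nonneg h5 h4
    rw [Real.norm_of_nonneg (Nat.cast_nonneg _), Real.norm_of_nonneg h6]
    exact h3
  refine ⟨A, ?_, hO, ?_⟩
  · filter_upwards [h1] with n hn
    obtain ⟨a, ha, b, hb, hab⟩ := hn
    have hfin : ({q : ℕ × ℕ | q.1 ∈ A ∧ q.2 ∈ A ∧ q.1 + q.2 = n} : Set (ℕ × ℕ)).Finite := by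
      refine (Set.finite_Iic (n, n)).subset ?_
      rintro ⟨c, d⟩ ⟨_, _, h⟩
      simp only at h
      rw [Set.mem_Iic, Prod.mk_le_mk]
      omega
    unfold rep
    exact (Set.ncard_pos hfin).2 ⟨(a, b), ha, hb, hab⟩
  · refine hO.trans_isLittleO ?_
    rw [isLittleO_iff_tendsto']
    · have h3 : Tendsto (fun n : ℕ => 1 / Pool.Agent.R447.SB.lll n) atTop (nhds 0) := by
        simp_rw [one_div]
        exact tendsto_inv_atTop_zero.comp Pool.Agent.R447.SB.tendsto_lll
      refine h3.congr' ?_
      filter_upwards [Pool.Agent.R447.SB.tendsto_lll.eventually (eventually_ge_atTop (1 : ℝ)),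
        Pool.Agent.R447.SB.tendsto_log_nat.eventually (eventually_ge_atTop (1 : ℝ))] with n h4 h5
      have h4' : Real.log (Real.log (Real.log n)) ≠ 0 := by
        have : (1 : ℝ) ≤ Real.log (Real.log (Real.log n)) := h4
        linarith
      unfold Pool.Agent.R447.SB.lll
      field_simp
    · filter_upwards [Pool.Agent.R447.SB.tendsto_log_nat.eventually
        (eventually_ge_atTop (1 : ℝ))] with n h5 h6
      linarith

end Pool.Agent.Results.MP_12a1af_nt.SlowBasis
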