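import Pool.Agent.R448.Cover

/-!
# The Erdős–Turán problem (MP_12a1af_nt): coverings by sets of small doubling at many scales

`rep A n` is the number of ordered pairs of elements of `A` with sum `n`.

If `A ∩ [0, N]` is covered by `x` translates of a set `B`, then `|A ∩ [0, N]| ^ 2 ≤ x ^ 2 |B + B| R`
where `R` is the maximum of `rep A`. The contributions of different scales add up:

1. If `A ∩ [0, N]` is covered, for each `j < k`, by `x j` translates of `B j`, and if
   `|B (j+1) - B (j+1)| ≥ q |B j - B j|` with `q > 1`, then for some `n ≤ 2 N`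
   `|A ∩ [0, N]| ^ 2 ∑ j, 1 / (x j ^ 2 |B j - B j|) ≤ (√q + 1) / (√q - 1) * rep A n`.
2. So the conclusion of Q1 and Q2 holds for every set `A` satisfying their hypotheses for which the
   sums `∑ j, N / (x j ^ 2 |B j - B j|)` over such families of coverings are unbounded for large `N`
   (for instance if `K √(N / |B j|)` translates of a set `B j` with `|B j - B j| ≤ D |B j|` suffice at
   an unbounded number of scales `j`).
3. Let `|A ∩ [1, N]| ≥ c √N` for some `c > 0` and infinitely many `N` (this follows from the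
   hypothesis of Q1 and from that of Q2). For real `α` let `arcs A α m` be the number of arcs
   `[i / m, (i + 1) / m)` modulo one which are visited by `a α`, `a ∈ A`. Let `(m j)` be lacunary and
   let the order of `α j` modulo one be at least `m j` (`α j` irrational, or `α j = 1 / m j`, in
   which case `arcs` counts residue classes). If `∑ j, m j / arcs A (α j) (m j) ^ 2 = ∞`, then
   `rep A` is unbounded.
4. If `rep A` is bounded, then `arcs A α m ^ 2 / m → ∞` as `m → ∞`, uniformly in all `α` of order at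
   least `m`.

Proof of 1: Cauchy–Schwarz for the number of pairs with a given difference against the weight
`∑ j, c j 1_{B j - B j}`.
-/

set_option autoImplicit false

namespace Pool.Agent.Results.MP_12a1af_nt.SmallDoublingCoverings

open Filter Finset Pointwise
open Pool.Agent.TH314.ET (rep IsBasis QuadGrowth Thick)
open Pool.Agent.R448 (Covers arcs)

/-- **Economical coverings at many scales.** -/
theorem result :
    -- 0. the hypotheses of Q1 and of Q2
    (∀ A : Set ℕ, IsBasis A ∨ QuadGrowth A → Thick A) ∧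
    -- 1. superadditivity over scales
    (∀ (A : Set ℕ) (N : ℕ) (q : ℝ) (k : ℕ) (X B : ℕ → Finset ℤ), 1 < q → Covers A N q k X B →
      ∃ n ≤ 2 * N, ((A ∩ Set.Icc 0 N).ncard : ℝ) ^ 2 *
        ∑ j ∈ range k, 1 / (((X j).card : ℝ) ^ 2 * (B j - B j).card) ≤
          (Real.sqrt q + 1) / (Real.sqrt q - 1) * rep A n) ∧
    -- 2. economical coverings at many scales
    (∀ A : Set ℕ, IsBasis A ∨ QuadGrowth A → ∀ q : ℝ, 1 < q →
      (∀ T : ℝ, ∃ᶠ N : ℕ in atTop, ∃ (k : ℕ) (X B : ℕ → Finset ℤ), Covers A N q k X B ∧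
        T ≤ ∑ j ∈ range k, (N : ℝ) / (((X j).card : ℝ) ^ 2 * (B j - B j).card)) →
      ∀ K : ℕ, ∃ n, K < rep A n) ∧
    -- 3. arcs visited by multiples
    (∀ A : Set ℕ, Thick A → ∀ (q : ℝ) (α : ℕ → ℝ) (m : ℕ → ℕ), 1 < q → (∀ j, 0 < m j) →
      (∀ j, q * (m j : ℝ) ≤ m (j + 1)) →
      (∀ j, ∀ d : ℕ, 0 < d → d < m j → ∀ z : ℤ, (d : ℝ) * α j ≠ z) →
      (¬ Summable fun j => (m j : ℝ) / (arcs A (α j) (m j) : ℝ) ^ 2) →
      ∀ K : ℕ, ∃ n, K < rep A n) ∧
    -- 4. uniform form
    (∀ A : Set ℕ, Thick A → (∃ K : ℕ, ∀ n, rep A n ≤ K) → ∀ T : ℝ, ∃ M : ℕ, ∀ m : ℕ, M ≤ m →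
      ∀ α : ℝ, (∀ d : ℕ, 0 < d → d < m → ∀ z : ℤ, (d : ℝ) * α ≠ z) →
        T * m ≤ (arcs A α m : ℝ) ^ 2) := by
  refine ⟨?_, ?_, ?_, ?_, ?_⟩
  · rintro A (h | h)
    · exact Pool.Agent.TH314.ET.thick_of_basis A h
    · exact Pool.Agent.TH314.ET.thick_of_growth A h
  · intro A N q k X B hq h
    exact Pool.Agent.R448.covers_main A N q hq k X B h
  · intro A hA q hq h
    exact Pool.Agent.R448.covers_ET A hA q hq h
  · intro A hA q α m hq hm hlac hα hdiv
    exact Pool.Agent.R448.arcs_ET A hA q hq α m hm hlac hα hdiv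
  · intro A hA hK T
    exact Pool.Agent.R448.arcs_uniform A hA hK T

end Pool.Agent.Results.MP_12a1af_nt.SmallDoublingCoverings
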